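import Pool.Agent.U398.MV.Fin3b

set_option autoImplicit false

/-!
# All moments of all linear forms in shifts of `S(t)`, unconditionally, with the error term known
# so far only under RH

Projects MV, MV2 and MV3: helper398 (lead of the projects, cross theorem, assembly), helper94,
helper473, helper504, helper618, helper668, helper6, helper204, helper667, helper780, helper858,
helper946, helper114, helper503, helper358, helper125, helper338, helper606, helper84, helper20,
helper881, helper460, helper671, helper256, helper139, helper747, helper501; library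
`Pool.Agent.U761.SZ` (helper761) on top of `Pool.Agent.Q97.UM`.
-/

namespace Pool.Agent.Results.MP_67227b_nt.AllMomentsOfS

open MeasureTheory Complex
open scoped Nat

noncomputable section

/-- `S(t) = (1/π) arg ζ(1/2 + it)`: `1/π` times the integral of `Im (ζ'/ζ)(s) ds` along the segments
from `2` to `2 + it` and from `2 + it` to `1/2 + it` -/
def S (t : ℝ) : ℝ :=
  1 / Real.pi * ((∫ u in (0 : ℝ)..t, (logDeriv riemannZeta ((2 : ℂ) + u * I)).re) -
    ∫ x in (1 / 2 : ℝ)..2, (logDeriv riemannZeta ((x : ℂ) + t * I)).im)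

/-- the linear form `∑ a_i S(t + h_i)` -/
def F {n : ℕ} (a h : Fin n → ℝ) (t : ℝ) : ℝ := ∑ i, a i * S (t + h i)

/-- its variance `∑_{i,j} a_i a_j (1/(2π²)) log |ζ(1 + 1/log T + i(h_i - h_j))|` -/
def V {n : ℕ} (T : ℝ) (a h : Fin n → ℝ) : ℝ :=
  ∑ i, ∑ j, a i * a j * (1 / (2 * Real.pi ^ 2) *
    Real.log ‖riemannZeta (1 + 1 / Real.log T + (h i - h j) * I)‖)

/-- the `m`-th moment of the normal law with variance `v`: `(m-1)!! v^(m/2)` for even `m`, else `0` -/
def gaussMoment (m : ℕ) (v : ℝ) : ℝ := if Even m then ((m - 1)‼ : ℝ) * v ^ (m / 2) else 0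

/-- all moments of order at least three -/
theorem result : ∀ m : ℕ, 3 ≤ m → ∃ C T0 : ℝ, ∀ T : ℝ, T0 ≤ T →
    ∀ (n : ℕ) (a h : Fin n → ℝ), (∑ i, |a i|) ≤ 1 → (∀ i, 0 ≤ h i ∧ h i ≤ T / (Real.log T) ^ 2) →
    IntervalIntegrable (fun t => F a h t ^ m) volume T (2 * T) ∧
    |1 / T * (∫ t in T..(2 * T), F a h t ^ m) - gaussMoment m (V T a h)| ≤
      C * (1 + |V T a h|) ^ ((m - 1) / 2) := by
  intro m hm
  have hV : ∀ (T : ℝ) (n : ℕ) (a h : Fin n → ℝ), V T a h = Pool.Agent.U398.MV.Vh T a h := by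
    intro T n a h
    unfold V Pool.Agent.U398.MV.Vh
    refine Finset.sum_congr rfl fun i _ => Finset.sum_congr rfl fun j _ => ?_
    congr 5
    push_cast
    ring
  have hF : ∀ (n : ℕ) (a h : Fin n → ℝ) (t : ℝ), F a h t = ∑ i, a i * Pool.Agent.U398.MV.pS (t + h i) :=
    fun n a h t => rfl
  obtain ⟨T1, _, H1⟩ := Pool.Agent.U398.MV.pow_int Pool.Agent.U858.MV3.t_EM2 m (by omega)
  rcases Nat.even_or_odd' m with ⟨k, hk | hk⟩
  · obtain ⟨k, rfl⟩ : ∃ j, k = j + 1 := ⟨k - 1, by omega⟩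
    obtain ⟨C, T0, _, _, H⟩ := Pool.Agent.U398.MV.th3 k
    refine ⟨C, max T0 T1, fun T hT n a h ha hh => ⟨H1 T ((le_max_right _ _).trans hT) n a h hh, ?_⟩⟩
    obtain ⟨h1, -⟩ := H T ((le_max_left _ _).trans hT) n a h ha hh
    have e1 : m = 2 * k + 2 := by omega
    have e2 : (m - 1) / 2 = k := by omega
    have e3 : Even m := by rw [e1]; exact ⟨k + 1, by ring⟩
    have e4 : m / 2 = k + 1 := by omega
    have e5 : m - 1 = 2 * k + 1 := by omega
    have e6 : (((2 * k + 1)‼ : ℕ) : ℝ) =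
        ((2 * k + 2).factorial : ℝ) / (2 ^ (k + 1) * ((k + 1).factorial : ℝ)) := by
      have h2 := Nat.factorial_eq_mul_doubleFactorial (2 * k + 1)
      have h3 := Nat.doubleFactorial_two_mul (k + 1)
      have h4 : 2 * k + 1 + 1 = 2 * (k + 1) := by ring
      rw [eq_div_iff (by positivity), show 2 * k + 2 = 2 * k + 1 + 1 by ring, h2, h4, h3]
      push_cast
      ring
    unfold gaussMoment
    rw [if_pos e3, e2, e4, e5, e6, hV]
    simp_rw [hF, e1]
    exact h1
  · obtain ⟨C, T0, _, _, H⟩ := Pool.Agent.U398.MV.th3 k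
    refine ⟨C, max T0 T1, fun T hT n a h ha hh => ⟨H1 T ((le_max_right _ _).trans hT) n a h hh, ?_⟩⟩
    obtain ⟨-, h1⟩ := H T ((le_max_left _ _).trans hT) n a h ha hh
    have e2 : (m - 1) / 2 = k := by omega
    have e3 : ¬ Even m := by rw [Nat.not_even_iff_odd, hk]; exact ⟨k, rfl⟩
    unfold gaussMoment
    rw [if_neg e3, e2, hV, sub_zero]
    simp_rw [hF, hk]
    exact h1

end

end Pool.Agent.Results.MP_67227b_nt.AllMomentsOfS
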